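import Pool.Agent.W758.AHC.Stm

namespace Pool.Agent.W371.AHC

open Pool.Agent.W758.AHC

theorem pc : S_PC := by
  classical
  intro ι κ _ _ I J E _ C D hC hD hJ hI h
  rcases (I \ C).eq_empty_or_nonempty with hem | ⟨i0, hi0⟩
  · rw [hem]; simp
  obtain ⟨j0, -⟩ := h i0 hi0
  have hne : Nonempty κ := ⟨j0⟩
  choose! j hjJ hjE hj2 using h
  have hc : ∀ i ∈ I \ C, ∃ c ∈ C, c ∈ I ∧ E c (j i) := by
    intro i hi
    by_contra hn
    push Not at hn
    have hsub : I.filter (fun i' => E i' (j i)) ⊆ (I.filter (fun i' => E i' (j i))) \ C := by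
      intro x hx
      rw [Finset.mem_sdiff]
      refine ⟨hx, fun hxC => ?_⟩
      rw [Finset.mem_filter] at hx
      exact hn x hxC hx.1 hx.2
    have h0 := Finset.card_le_card hsub
    have h1 := hJ (j i) (hjJ i hi)
    have h2 := hj2 i hi
    omega
  choose! c hcC hcI hcE using hc
  have hj : ∀ i ∈ I \ C, ∀ i' ∈ I \ C, j i = j i' → i = i' := by
    intro i hi i' hi' hjj
    have h1 := Finset.card_le_one.1 (hJ (j i) (hjJ i hi))
    refine h1 i ?_ i' ?_
    · rw [Finset.mem_sdiff, Finset.mem_filter]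
      exact ⟨⟨(Finset.mem_sdiff.1 hi).1, hjE i hi⟩, (Finset.mem_sdiff.1 hi).2⟩
    · rw [Finset.mem_sdiff, Finset.mem_filter, hjj]
      exact ⟨⟨(Finset.mem_sdiff.1 hi').1, hjE i' hi'⟩, (Finset.mem_sdiff.1 hi').2⟩
  have key : (I \ C).card ≤ (D.disjSum C).card := by
    refine Finset.card_le_card_of_injOn
      (fun i => if j i ∈ D then (Sum.inl (j i) : κ ⊕ ι) else Sum.inr (c i)) ?_ ?_
    · intro i hi
      have hi' : i ∈ I \ C := hi
      by_cases hd : j i ∈ D
      · simp [hd]
      · simp [hd, hcC i hi']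
    · intro i hi i' hi' he
      have hi0 : i ∈ I \ C := hi
      have hi0' : i' ∈ I \ C := hi'
      simp only at he
      by_cases hd : j i ∈ D <;> by_cases hd' : j i' ∈ D
      · rw [if_pos hd, if_pos hd'] at he
        exact hj i hi0 i' hi0' (Sum.inl.inj he)
      · rw [if_pos hd, if_neg hd'] at he
        cases he
      · rw [if_neg hd, if_pos hd'] at he
        cases he
      · rw [if_neg hd, if_neg hd'] at he
        have hcc := Sum.inr.inj he
        refine hj i hi0 i' hi0' ?_
        have h1 := Finset.card_le_one.1 (hI (c i) (hcI i hi0))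
        refine h1 _ ?_ _ ?_
        · rw [Finset.mem_sdiff, Finset.mem_filter]
          exact ⟨⟨hjJ i hi0, hcE i hi0⟩, hd⟩
        · rw [Finset.mem_sdiff, Finset.mem_filter, hcc]
          exact ⟨⟨hjJ i' hi0', hcE i' hi0'⟩, hd'⟩
  rw [Finset.card_disjSum] at key
  omega

end Pool.Agent.W371.AHC
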